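import Pool.Agent.X240.Gen.Final
import Pool.Agent.Y638.RF.Tri

set_option autoImplicit false

/-! # Triangles and integral formulas -/

namespace Pool.Agent.X240.Tri

open Finset
open Pool.Agent.TH697.Form (IsProb)
open Pool.Agent.TH697.Row (ApproximatesOn)
open Pool.Agent.TH457.Ary.Tri
open Pool.Agent.TH457.Ary.Sat (exists_k)

variable {m k c w v : ℕ}

theorem word_asks (hk : 3 ≤ k) (hm : 4 ^ k ≤ m) (p : Fin m) :
    Pool.Agent.Y638.WF.Asks (D := fun _ : Fin m => Edge (2 * m)) (Fin (M m k) × Fin k) 0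
      Simple triangle p := by
  classical
  have hne : NeZero m := ⟨by have : 0 < 4 ^ k := by positivity
                             omega⟩
  -- the input
  have key : ∀ t (z : Fin (M m k) × Fin k → Bool) (p' : Fin m),
      Function.update (fun p' : Fin m => toEdge m (edge z (rank p.val p'.val))) p
        (toEdge m (askEdge t)) p' = toEdge m (inp p.val t z p'.val) := by
    intro t z p'
    by_cases h : p' = p
    · subst h
      rw [Function.update_self]
      simp [inp]
    · rw [Function.update_of_ne h]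
      have : p'.val ≠ p.val := fun h' => h (Fin.ext h')
      simp [inp, this]
  have hval : ∀ t (z : Fin (M m k) × Fin k → Bool) (p' : Fin m),
      ((toEdge m (inp p.val t z p'.val)).1.val, (toEdge m (inp p.val t z p'.val)).2.val) =
        inp p.val t z p'.val := by
    intro t z p'
    have hb := bounds hk hm p.val p.2 t z p'.val p'.2
    exact toEdge_val _ (by omega) hb.2
  have hf : ∀ (t : Fin (M m k) × Fin k) (z : Fin (M m k) × Fin k → Bool),
      triangle (Function.update (fun p' : Fin m => toEdge m (edge z (rank p.val p'.val))) p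
        (toEdge m (askEdge t))) = z t := by
    intro t z
    unfold triangle
    rw [Bool.eq_iff_iff, decide_eq_true_iff, ← tri_iff hk hm p.val p.2 t z]
    simp only [key]
    constructor
    · rintro ⟨a, b, c, ⟨p1, e1⟩, ⟨p2, e2⟩, ⟨p3, e3⟩⟩
      refine ⟨a.val, b.val, c.val, ⟨p1.val, p1.2, ?_⟩, ⟨p2.val, p2.2, ?_⟩, ⟨p3.val, p3.2, ?_⟩⟩
      · rw [← hval t z p1, e1]
      · rw [← hval t z p2, e2]
      · rw [← hval t z p3, e3]
    · rintro ⟨a, b, c, ⟨p1, h1, e1⟩, ⟨p2, h2, e2⟩, ⟨p3, h3, e3⟩⟩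
      have b1 := bounds hk hm p.val p.2 t z p1 h1
      have b2 := bounds hk hm p.val p.2 t z p2 h2
      rw [e1] at b1
      rw [e2] at b2
      simp only at b1 b2
      have v1 := hval t z ⟨p1, h1⟩
      have v2 := hval t z ⟨p2, h2⟩
      have v3 := hval t z ⟨p3, h3⟩
      simp only at v1 v2 v3
      rw [e1, Prod.mk.injEq] at v1
      rw [e2, Prod.mk.injEq] at v2
      rw [e3, Prod.mk.injEq] at v3
      refine ⟨⟨a, by omega⟩, ⟨b, by omega⟩, ⟨c, by omega⟩, ⟨⟨p1, h1⟩, ?_⟩, ⟨⟨p2, h2⟩, ?_⟩,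
        ⟨⟨p3, h3⟩, ?_⟩⟩
      · simp only
        rw [e1]
        exact Prod.ext (Fin.ext v1.1) (Fin.ext v1.2)
      · simp only
        rw [e2]
        exact Prod.ext (Fin.ext v2.1) (Fin.ext v2.2)
      · simp only
        rw [e3]
        exact Prod.ext (Fin.ext v3.1) (Fin.ext v3.2)
  refine Pool.Agent.Y638.WF.asks_of (Set.range fun t : Fin (M m k) × Fin k => toEdge m (askEdge t))
    (fun _ => 0) (fun t _ => toEdge m (askEdge t))
    (fun z p' => toEdge m (edge z (rank p.val p'.val))) (fun t _ => ⟨t, rfl⟩)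
    (fun _ _ _ _ => rfl) ?_ ?_
  · rintro _ ⟨t, rfl⟩ z
    refine ⟨fun p' => ?_, fun p' p'' h => ?_⟩
    · rw [key]
      have hb := bounds hk hm p.val p.2 t z p'.val p'.2
      have hv := hval t z p'
      rw [Prod.ext_iff] at hv
      rw [Fin.lt_def]
      simp only at hv
      omega
    · rw [key, key] at h
      apply Fin.ext
      apply inj hk hm p.val p.2 t z _ _ p'.2 p''.2
      rw [← hval t z p', ← hval t z p'', h]
  · simp only [hf, ne_eq, not_true_eq_false, filter_false, card_empty]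
    simp

/-- the bound -/
theorem word_bound (hm : 2048 ≤ m) (hw : 1 ≤ w) {Ω : Type} [Fintype Ω]
    (μ : Ω → ℝ) (hμ : IsProb μ) (s : ℕ)
    (B : Ω → Pool.Agent.Y638.WF.Program (Fin m) (fun _ => Edge (2 * m)) w (2 ^ c) (2 ^ v)
      Simple s)
    (hB : ApproximatesOn μ (fun ω => (B ω).eval) Simple triangle) :
    (m : ℝ) ^ 2 * Real.logb 2 m ≤ 2500 * w * (v + c * w + Real.logb 2 m) * s := by
  obtain ⟨k, hk, hk1, hk2⟩ := exists_k (m := m) (by omega)
  have hw' : (1 : ℝ) ≤ w := by exact_mod_cast hw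
  have hc' : (0 : ℝ) ≤ c := Nat.cast_nonneg c
  have hv' : (0 : ℝ) ≤ v := Nat.cast_nonneg v
  have hs0 : (0 : ℝ) ≤ s := Nat.cast_nonneg s
  have hm' : (2048 : ℝ) ≤ m := by exact_mod_cast hm
  have hl := Pool.Agent.X240.Gen.le_logb hm
  have hcl := Pool.Agent.X240.Gen.clog_le (by omega : 2 ≤ m)
  have hlog := Pool.Agent.X240.Gen.logb_le_of_2048 hm'
  have hk3 := Pool.Agent.Y638.RF.Tri.logb_m hk (by omega) hk2
  have hcT := card_T (by omega) hk1
  have hk' : (4 : ℝ) ≤ k := by exact_mod_cast hk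
  have hup : Fintype.card (Fin (M m k) × Fin k) ≤ m ^ 2 := by
    rw [Fintype.card_prod, Fintype.card_fin, Fintype.card_fin]
    have h1 : k < 4 ^ k := Nat.lt_pow_self (by norm_num)
    have h2 : M m k ≤ m := by
      have : M m k = m - 1 - k * 2 ^ k := rfl
      omega
    calc M m k * k ≤ m * m := Nat.mul_le_mul h2 (by omega)
      _ = m ^ 2 := by ring
  have hΛ : (univ : Finset (Fin m)).card * Fintype.card (Fin (M m k) × Fin k) + 1 ≤
      2 ^ (4 * Nat.clog 2 m) := by
    rw [card_univ, Fintype.card_fin]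
    have hpow : m ≤ 2 ^ Nat.clog 2 m := Nat.le_pow_clog (by norm_num) m
    have h1 : (2 ^ Nat.clog 2 m) ^ 4 = 2 ^ (4 * Nat.clog 2 m) := by rw [← pow_mul]; ring_nf
    rw [← h1]
    refine le_trans ?_ (Nat.pow_le_pow_left hpow 4)
    have h2 : m * Fintype.card (Fin (M m k) × Fin k) ≤ m * m ^ 2 := Nat.mul_le_mul_left _ hup
    have h3 : m * m ^ 2 = m ^ 3 := by ring
    have h4 : m ^ 4 = m * m ^ 3 := by ring
    have h5 : 2048 * m ^ 3 ≤ m * m ^ 3 := Nat.mul_le_mul_right _ hm
    have h6 : 1 ≤ m ^ 3 := Nat.one_le_pow _ _ (by omega)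
    omega
  have h := Pool.Agent.X240.Gen.wf_program hw μ hμ s B hB (I := univ)
    (T := Fin (M m k) × Fin k) (Λ := 4 * Nat.clog 2 m)
    (fun p _ => word_asks (by omega) hk1 p) hΛ (by
      push_cast
      nlinarith)
  rw [card_univ (α := Fin m), Fintype.card_fin] at h
  have h11 : (w : ℝ) * (25 + 12 * v + 4 * ((4 * Nat.clog 2 m : ℕ) : ℝ) + 2 * (w - 1) * c) ≤
      w * (20 * (v + c * w + Real.logb 2 m)) := by
    apply mul_le_mul_of_nonneg_left _ (by linarith)
    have : 2 * ((w : ℝ) - 1) * c = 2 * (c * w) - 2 * c := by ring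
    rw [this]
    have : (0 : ℝ) ≤ c * w := by positivity
    push_cast
    linarith
  have h12 := mul_le_mul_of_nonneg_right h11 hs0
  have e1 : 25 * (w : ℝ) * (25 + 12 * v + 4 * ((4 * Nat.clog 2 m : ℕ) : ℝ) + 2 * (w - 1) * c) * s =
    25 * (w * (25 + 12 * v + 4 * ((4 * Nat.clog 2 m : ℕ) : ℝ) + 2 * (w - 1) * c) * s) := by ring
  have e2 : 2500 * (w : ℝ) * (v + c * w + Real.logb 2 m) * s =
    5 * (25 * (w * (20 * (v + c * w + Real.logb 2 m)) * s)) := by ring
  rw [e1] at h
  rw [e2]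
  have h13 : (m : ℝ) * (m * k / 2) ≤ m * (Fintype.card (Fin (M m k) × Fin k) : ℝ) :=
    mul_le_mul_of_nonneg_left hcT (by linarith)
  have h14 : (m : ℝ) ^ 2 * Real.logb 2 m ≤ m ^ 2 * (5 / 2 * k) :=
    mul_le_mul_of_nonneg_left hk3 (by positivity)
  have e3 : (m : ℝ) ^ 2 * (5 / 2 * k) = 5 * (m * (m * k / 2)) := by ring
  rw [e3] at h14
  linarith

end Pool.Agent.X240.Tri
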